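import Mathlib

set_option autoImplicit false

open scoped TensorProduct

/-!
The definitions used in the statement of the result on `MP_a85771_al`.
-/

namespace Pool.Agent.H919R3.Stmt

section
variable {H : Type} [Group H]

/-- The boundary of the `1`-chain `f` of the Cayley graph of `H` with respect to the finite set
`S`; the coordinate `(h, s)` belongs to the oriented edge from `h` to `h s`. The value at `h` is
the sum over the edges ending in `h` minus the sum over the edges starting in `h`. -/
noncomputable def boundary (S : Finset H) (f : H × S → ℂ) (h : H) : ℂ :=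
  ∑ s : S, (f (h * (s : H)⁻¹, s) - f (h, s))

/-- `f` is a square-summable `1`-cycle of the Cayley graph which is orthogonal to all finitely
supported `1`-cycles. If `S` generates `H`, the space of these `f` is the orthogonal complement,
in the `ℓ²`-cycles, of the closure of the image of the `ℓ²`-chains of a presentation complex, so
it represents the reduced first homology `H₁(H; ℓ² H)`. -/
structure IsHarmonic (S : Finset H) (f : H × S → ℂ) : Prop where
  square_summable : Summable fun x => ‖f x‖ ^ 2
  cycle : ∀ h, boundary S f h = 0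
  orthogonal : ∀ z : H × S → ℂ, (Function.support z).Finite → (∀ h, boundary S z h = 0) →
    ∑ᶠ x, star (z x) * f x = 0

/-- The first `ℓ²`-Betti number of `H`, computed from the finite generating set `S`: the von
Neumann dimension `∑ₛ ‖P δ₍₁,ₛ₎‖²` of the space `V` of harmonic `f`, where `P` is the orthogonal
projection onto `V`; here `‖P δ₍₁,ₛ₎‖²` is written as the supremum of `|f (1, s)|²` over all
`f ∈ V` with `‖f‖² ≤ 1`. -/
noncomputable def l2Betti (S : Finset H) : ℝ :=
  ∑ s : S, sSup {r : ℝ | ∃ f : H × S → ℂ,
    IsHarmonic S f ∧ ∑' x, ‖f x‖ ^ 2 ≤ 1 ∧ r = ‖f (1, s)‖ ^ 2}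

end

/-- The first Betti number `dim_ℚ (ℚ ⊗ H^ab)`. -/
noncomputable def bettiOne (H : Type) [Group H] : ℕ :=
  Module.finrank ℚ (ℚ ⊗[ℤ] Additive (Abelianization H))

/-- The relator `∏ [aᵢ, bᵢ]` of the fundamental group of the closed orientable surface of
genus `g`. -/
def orRel (g : ℕ) : FreeGroup (Fin g × Bool) :=
  (List.ofFn fun i : Fin g => FreeGroup.of (i, false) * FreeGroup.of (i, true) *
    (FreeGroup.of (i, false))⁻¹ * (FreeGroup.of (i, true))⁻¹).prod

/-- The relator `∏ cᵢ²` of the fundamental group of the closed non-orientable surface of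
genus `k`. -/
def nonRel (k : ℕ) : FreeGroup (Fin k) :=
  (List.ofFn fun i : Fin k => FreeGroup.of i ^ 2).prod

/-- Fundamental groups of closed surfaces of negative Euler characteristic: orientable of genus
`g ≥ 2` or non-orientable of genus `k ≥ 3`. -/
def IsHypSurface (G : Type) [Group G] : Prop :=
  (∃ g : ℕ, 2 ≤ g ∧ Nonempty (G ≃* PresentedGroup {orRel g})) ∨
  (∃ k : ℕ, 3 ≤ k ∧ Nonempty (G ≃* PresentedGroup {nonRel k}))

end Pool.Agent.H919R3.Stmt
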